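import Pool.Agent.DFM.Stmts

/-!
# Squad DFM, row ICF: intervals are finite
-/

set_option autoImplicit false

namespace Pool.Agent.DFM.H86

open Pool.Agent.DFM

/-- the possible first indices -/
def lo {I J : Type} : El I J → Finset I
  | El.low G => G
  | El.ch i _ _ => {i}
  | _ => ∅

/-- the possible second indices -/
def hi {I J : Type} : El I J → Finset J
  | El.top F => F
  | El.ch _ j _ => {j}
  | _ => ∅

/-- **ICF** -/
theorem icf : IcfStmt := by
  intro I J w x y
  have hfin : ((El.low '' ((lo x).powerset : Set (Finset I))) ∪ {(El.mid : El I J)} ∪
      (El.top '' ((hi y).powerset : Set (Finset J))) ∪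
      ⋃ i ∈ lo x, ⋃ j ∈ hi y, (fun n => (El.ch i j n : El I J)) '' Set.Iio (w i j)).Finite := by
    refine Set.Finite.union (Set.Finite.union (Set.Finite.union ?_ (Set.finite_singleton _)) ?_) ?_
    · exact ((lo x).powerset.finite_toSet).image _
    · exact ((hi y).powerset.finite_toSet).image _
    · refine Set.Finite.biUnion (lo x).finite_toSet fun i _ => ?_
      refine Set.Finite.biUnion (hi y).finite_toSet fun j _ => ?_
      exact (Set.finite_Iio _).image _
  refine hfin.subset ?_
  rintro z ⟨h1, h2, h3⟩
  cases z with
  | low G' =>
    left; left; left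
    refine ⟨G', ?_, rfl⟩
    cases x with
    | low G => exact Finset.mem_coe.2 (Finset.mem_powerset.2 h2)
    | mid => exact absurd h2 (by simp [le])
    | top F => exact absurd h2 (by simp [le])
    | ch i j n => exact absurd h2 (by simp [le])
  | mid => left; left; right; rfl
  | top F' =>
    left; right
    refine ⟨F', ?_, rfl⟩
    cases y with
    | low G => exact absurd h3 (by simp [le])
    | mid => exact absurd h3 (by simp [le])
    | top F => exact Finset.mem_coe.2 (Finset.mem_powerset.2 h3)
    | ch i j n => exact absurd h3 (by simp [le])
  | ch i j n =>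
    right
    have hi1 : i ∈ lo x := by
      cases x with
      | low G => exact h2
      | mid => exact absurd h2 (by simp [le])
      | top F => exact absurd h2 (by simp [le])
      | ch i' j' n' =>
        have h4 : i' = i := h2.1
        simp [lo, h4]
    have hj1 : j ∈ hi y := by
      cases y with
      | low G => exact absurd h3 (by simp [le])
      | mid => exact absurd h3 (by simp [le])
      | top F => exact h3
      | ch i' j' n' =>
        have h4 : j = j' := h3.2.1
        simp [hi, h4]
    simp only [Set.mem_iUnion]
    exact ⟨i, hi1, j, hj1, n, h1, rfl⟩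

end Pool.Agent.DFM.H86
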